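import Mathlib
import Pool.Graph.R_seed8.H19P.TMJ
import Pool.Graph.R_seed8.Results.MP_b1aeef_nt.JointWords

set_option autoImplicit false

/-! # Thue–Morse along polynomials: every word occurs at least `c N ^ δ` times below `N`,
the exponent `δ` depending only on the degree -/

namespace Pool.Agent.Results.MP_b1aeef_nt.ManyOccurrences

open Polynomial Finset Filter
open Pool.Agent.H625R3.TM Pool.Agent.H19P.TMJ

/-- The Thue–Morse sequence: `t n` is the parity of the sum of the binary digits of `n`. -/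
def t (n : ℕ) : ℕ := (Nat.digits 2 n).sum % 2

/-- The subsequence of `t` along `P`: `u_P n = t (P n)`. -/
def uSeq (P : ℤ[X]) (n : ℕ) : ℕ := t (P.eval (n : ℤ)).toNat

/-- The subword complexity of a sequence `u`: the number of distinct words
`u m, u (m+1), …, u (m+k-1)`, `m ≥ 0`. -/
noncomputable def complexity (u : ℕ → ℕ) (k : ℕ) : ℕ :=
  Set.ncard {w : Fin k → ℕ | ∃ m : ℕ, ∀ i : Fin k, w i = u (m + i)}

/-- `E d = (d + 1) ^ R`, `R` the least power of two greater than `d`. -/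
def E (d : ℕ) : ℕ := (d + 1) ^ 2 ^ (Nat.log 2 d + 1)

/-! ## Blocks -/

lemma eval_mono (Q : ℕ[X]) {y z : ℕ} (h : y ≤ z) : Q.eval y ≤ Q.eval z := by
  rw [eval_eq_sum_range, eval_eq_sum_range]
  exact Finset.sum_le_sum fun i _ => Nat.mul_le_mul_left _ (Nat.pow_le_pow_left h i)

lemma fop_le (d : ℕ) (Q : ℕ[X]) (hQ : Q.natDegree ≤ d) (y a j : ℕ) (hj : j ∈ range (d + 1)) :
    (fop a j Q).eval y ≤ Q.eval (y + a) := by
  have h := eval_block d Q hQ y a 0
  rw [pow_zero, mul_one] at h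
  rw [h]
  have h2 := Finset.single_le_sum (f := fun j => (fop a j Q).eval y * 2 ^ (0 * j))
    (fun _ _ => Nat.zero_le _) hj
  simpa using h2

/-- the sum of the first `s` powers of two -/
def S (M : ℕ → ℕ) (s : ℕ) : ℕ := ∑ i ∈ range s, 2 ^ M i

lemma block_many (d X : ℕ) (M : ℕ → ℕ) : ∀ (s : ℕ) (Q : ℕ[X]), Q.natDegree ≤ d →
    (∀ i < s, Q.eval ((s + 1) * X + X * S M i) < 2 ^ M i) →
    ∀ x ≤ X, ∀ y ≤ X, tm (Q.eval (y + x * S M s)) = (((Del d x) ^ s) (ev y)) Q := by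
  intro s
  induction s with
  | zero => intro Q _ _ x _ y _; simp [S, ev]
  | succ s ih =>
    intro Q hQ hM x hx y hy
    have e : y + x * S M (s + 1) = (y + x * S M s) + x * 2 ^ M s := by
      unfold S; rw [Finset.sum_range_succ]; ring
    have hxS : ∀ i, x * S M i ≤ X * S M i := fun i => Nat.mul_le_mul_right _ hx
    have hsX : ((s + 1) + 1) * X = (s + 1) * X + X := by ring
    rw [e, tm_block d Q hQ (y + x * S M s) x (M s), Del_apply, pow_succ', Module.End.mul_apply,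
      Del_apply]
    · refine Finset.sum_congr rfl fun j hj => ?_
      refine ih (fop x j Q) ?_ ?_ x hx y hy
      · exact (natDegree_fop_le x j Q).trans ((Nat.sub_le _ _).trans hQ)
      · intro i hi
        refine lt_of_le_of_lt ((fop_le d Q hQ _ x j hj).trans (eval_mono Q ?_)) (hM i (by omega))
        omega
    · intro j hj
      refine lt_of_le_of_lt ((fop_le d Q hQ _ x j hj).trans (eval_mono Q ?_)) (hM s (by omega))
      have h1 := hxS s
      have h2 : X ≤ (s + 1) * X := Nat.le_mul_of_pos_left _ (by omega)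
      omega

lemma recur (d e X : ℕ) (M : ℕ → ℕ) (Q : ℕ[X]) (hQ : Q.natDegree ≤ d) (hd : d < 2 ^ e)
    (hM : ∀ i < 2 ^ e, Q.eval ((2 ^ e + 1) * X + X * S M i) < 2 ^ M i) (x y : ℕ) (hx : x ≤ X)
    (hy : y ≤ X) : tm (Q.eval (y + x * S M (2 ^ e))) = tm (Q.eval y) := by
  rw [block_many d X M (2 ^ e) Q hQ hM x hx y hy, pow_id d x e (ev_zero y) Q (hQ.trans_lt hd)]
  rfl

/-! ## The choice of the exponents -/

def mm (A d R X u : ℕ) : ℕ := Nat.log 2 (A * ((R + 1) * X + X * u) ^ d) + 1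

def ss (A d R X : ℕ) : ℕ → ℕ
  | 0 => 0
  | i + 1 => ss A d R X i + 2 ^ mm A d R X (ss A d R X i)

def Bc (A d R : ℕ) : ℕ → ℕ
  | 0 => 0
  | i + 1 => Bc A d R i + 2 * A * (R + 1 + Bc A d R i) ^ d

lemma S_eq (A d R X : ℕ) : ∀ i, S (fun i => mm A d R X (ss A d R X i)) i = ss A d R X i := by
  intro i
  induction i with
  | zero => simp [S, ss]
  | succ i ih =>
    unfold S at ih ⊢
    rw [Finset.sum_range_succ, ih, ss]

lemma ss_bound (A d R X : ℕ) (hA : 1 ≤ A) (hX : 1 ≤ X) :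
    ∀ i, X * ss A d R X i ≤ Bc A d R i * X ^ ((d + 1) ^ i) := by
  intro i
  induction i with
  | zero => simp [ss]
  | succ i ih =>
    rw [ss, Bc, Nat.mul_add, Nat.add_mul]
    obtain ⟨u, hu⟩ : ∃ u, u = ss A d R X i := ⟨_, rfl⟩
    obtain ⟨p, hp⟩ : ∃ p, p = (d + 1) ^ i := ⟨_, rfl⟩
    have hp1 : 1 ≤ p := by rw [hp]; exact Nat.one_le_pow _ _ (by omega)
    have hpp : (d + 1) ^ (i + 1) = d * p + p := by rw [pow_succ, ← hp]; ring
    rw [← hu, ← hp] at ih
    rw [← hu, hpp]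
    have h1 : (R + 1) * X + X * u ≤ (R + 1 + Bc A d R i) * X ^ p := by
      have h2 : X ≤ X ^ p := by
        calc X = X ^ 1 := (pow_one X).symm
          _ ≤ X ^ p := Nat.pow_le_pow_right hX hp1
      have h3 := Nat.mul_le_mul_left (R + 1) h2
      have h3' : (R + 1 + Bc A d R i) * X ^ p = (R + 1) * X ^ p + Bc A d R i * X ^ p := by ring
      omega
    have h4 : 2 ^ mm A d R X u ≤ 2 * (A * ((R + 1) * X + X * u) ^ d) := by
      unfold mm
      rw [pow_succ, Nat.mul_comm]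
      apply Nat.mul_le_mul_left
      apply Nat.pow_log_le_self
      have : 0 < (R + 1) * X + X * u := by
        have : 0 < (R + 1) * X := Nat.mul_pos (by omega) (by omega)
        omega
      positivity
    have h5 : X * 2 ^ mm A d R X u ≤ 2 * A * (R + 1 + Bc A d R i) ^ d * X ^ (d * p + p) := by
      calc X * 2 ^ mm A d R X u ≤ X * (2 * (A * ((R + 1 + Bc A d R i) * X ^ p) ^ d)) := by
            apply Nat.mul_le_mul_left
            refine h4.trans ?_
            apply Nat.mul_le_mul_left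
            apply Nat.mul_le_mul_left
            exact Nat.pow_le_pow_left h1 d
        _ = 2 * A * (R + 1 + Bc A d R i) ^ d * X ^ (d * p + 1) := by
            rw [mul_pow, ← pow_mul, mul_comm p d, pow_succ]; ring
        _ ≤ 2 * A * (R + 1 + Bc A d R i) ^ d * X ^ (d * p + p) := by
            apply Nat.mul_le_mul_left
            exact Nat.pow_le_pow_right hX (by omega)
    have h6 : Bc A d R i * X ^ p ≤ Bc A d R i * X ^ (d * p + p) := by
      apply Nat.mul_le_mul_left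
      exact Nat.pow_le_pow_right hX (by omega)
    omega

lemma eval_le (Q : ℕ[X]) (d : ℕ) (hQ : Q.natDegree ≤ d) (Z : ℕ) (hZ : 1 ≤ Z) :
    Q.eval Z ≤ Q.eval 1 * Z ^ d := by
  rw [eval_eq_sum_range, eval_eq_sum_range, Finset.sum_mul]
  apply Finset.sum_le_sum
  intro i hi
  rw [mem_range] at hi
  rw [one_pow, mul_one]
  exact Nat.mul_le_mul_left _ (Nat.pow_le_pow_right hZ (by omega))

/-- The sequences `tm (Q n)` for finitely many polynomials with non-negative coefficients: their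
prefixes of length `X` recur at the places `x σ`, `x ≤ X`. -/
theorem nat_recur {r : ℕ} (Q : Fin r → ℕ[X]) (d : ℕ) (hd : ∀ j, (Q j).natDegree ≤ d) :
    ∃ B : ℕ, 1 ≤ B ∧ ∀ X : ℕ, 1 ≤ X → ∃ σ : ℕ, 1 ≤ σ ∧ X * σ ≤ B * X ^ E d ∧
      ∀ x ≤ X, ∀ y ≤ X, ∀ j, tm ((Q j).eval (y + x * σ)) = tm ((Q j).eval y) := by
  set A : ℕ := 1 + ∑ j, (Q j).eval 1 with hA
  set R : ℕ := 2 ^ (Nat.log 2 d + 1) with hR
  have hA1 : 1 ≤ A := by omega
  refine ⟨Bc A d R R + 1, by omega, fun X hX => ?_⟩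
  set M : ℕ → ℕ := fun i => mm A d R X (ss A d R X i) with hM
  have hSe := S_eq A d R X
  refine ⟨S M R, ?_, ?_, ?_⟩
  · have hR1 : 0 < R := by positivity
    have h1 : 2 ^ M 0 ≤ S M R := by
      unfold S
      exact Finset.single_le_sum (f := fun i => 2 ^ M i) (fun _ _ => Nat.zero_le _)
        (mem_range.2 hR1)
    have h2 : 1 ≤ 2 ^ M 0 := Nat.one_le_two_pow
    omega
  · rw [hSe R]
    refine (ss_bound A d R X hA1 hX R).trans ?_
    unfold E
    exact Nat.mul_le_mul_right _ (by omega)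
  · intro x hx y hy j
    refine recur d (Nat.log 2 d + 1) X M (Q j) (hd j) (Nat.lt_pow_succ_log_self (by norm_num) d)
      ?_ x y hx hy
    intro i hi
    rw [← hR, hSe i]
    have hpos : 0 < (R + 1) * X := Nat.mul_pos (by omega) (by omega)
    have h1 := eval_le (Q j) d (hd j) ((R + 1) * X + X * ss A d R X i) (by omega)
    have h2 : (Q j).eval 1 ≤ A := by
      have : (Q j).eval 1 ≤ ∑ j, (Q j).eval 1 :=
        Finset.single_le_sum (f := fun j => (Q j).eval 1) (fun _ _ => Nat.zero_le _) (mem_univ j)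
      omega
    have h3 : (Q j).eval 1 * ((R + 1) * X + X * ss A d R X i) ^ d ≤
        A * ((R + 1) * X + X * ss A d R X i) ^ d := Nat.mul_le_mul_right _ h2
    have h4 : A * ((R + 1) * X + X * ss A d R X i) ^ d < 2 ^ M i := by
      show _ < 2 ^ (Nat.log 2 (A * ((R + 1) * X + X * ss A d R X i) ^ d) + 1)
      exact Nat.lt_pow_succ_log_self (by norm_num) _
    omega

/-! ## Integer polynomials -/

theorem t_cast (n : ℕ) : ((t n : ℕ) : ZMod 2) = tm n := by
  unfold t tm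
  simp

theorem t_lt (n : ℕ) : t n < 2 := Nat.mod_lt _ (by norm_num)

theorem t_eq_of_tm {a b : ℕ} (h : tm a = tm b) : t a = t b := by
  rw [← t_cast, ← t_cast] at h
  have h5 : t a % 2 = t b % 2 := (ZMod.natCast_eq_natCast_iff _ _ 2).mp h
  rwa [Nat.mod_eq_of_lt (t_lt _), Nat.mod_eq_of_lt (t_lt _)] at h5

theorem int_recur {r : ℕ} (P : Fin r → ℤ[X]) (d : ℕ) (hP : ∀ j, ∀ n : ℕ, 0 ≤ (P j).eval (n : ℤ))
    (hd : ∀ j, 1 ≤ (P j).natDegree ∧ (P j).natDegree ≤ d) :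
    ∃ c0 B : ℕ, 1 ≤ B ∧ ∀ X : ℕ, 1 ≤ X → ∃ σ : ℕ, 1 ≤ σ ∧ X * σ ≤ B * X ^ E d ∧
      ∀ x ≤ X, ∀ m, c0 ≤ m → m ≤ c0 + X → ∀ j, uSeq (P j) (m + x * σ) = uSeq (P j) m := by
  choose c hc using fun j => to_nat' (P j) (hP j) (hd j).1
  have hle : ∀ j, c j ≤ ∑ j, c j := fun j =>
    Finset.single_le_sum (f := c) (fun _ _ => Nat.zero_le _) (mem_univ j)
  set c0 := ∑ j, c j with hc0
  choose R h1 h2 h3 using fun j => hc j c0 (hle j)
  obtain ⟨B, hB, h⟩ := nat_recur R d (fun j => by rw [h1 j]; exact (hd j).2)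
  refine ⟨c0, B, hB, fun X hX => ?_⟩
  obtain ⟨σ, hσ1, hσ2, hσ⟩ := h X hX
  refine ⟨σ, hσ1, hσ2, fun x hx m hm1 hm2 j => ?_⟩
  obtain ⟨y, rfl⟩ : ∃ y, m = y + c0 := ⟨m - c0, by omega⟩
  have h4 := hσ x hx y (by omega) j
  have h5 := h3 j y
  have h6 := h3 j (y + x * σ)
  have e2 : ((y + x * σ + c0 : ℕ) : ℤ) = ((y + c0 + x * σ : ℕ) : ℤ) := by push_cast; ring
  rw [e2] at h6
  unfold uSeq
  rw [← h5, ← h6, Int.toNat_natCast, Int.toNat_natCast]
  exact t_eq_of_tm h4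

lemma E_pos (d : ℕ) : 1 ≤ E d := by unfold E; exact Nat.one_le_pow _ _ (by omega)

/-- the finiteness of the sets which are counted -/
lemma fin_lt (N : ℕ) (p : ℕ → Prop) : {n : ℕ | n < N ∧ p n}.Finite :=
  (Set.finite_lt_nat N).subset fun _ h => h.1

theorem count_recur {r : ℕ} (P : Fin r → ℤ[X]) (d : ℕ)
    (hP : ∀ j, ∀ n : ℕ, 0 ≤ (P j).eval (n : ℤ))
    (hd : ∀ j, 1 ≤ (P j).natDegree ∧ (P j).natDegree ≤ d) (q : ℕ) (hq : 0 < q) :
    ∃ c0 C : ℕ, 1 ≤ C ∧ ∀ K N : ℕ, 1 ≤ K → C * K ^ E d ≤ N →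
      (N : ℝ) ^ (1 / (E d : ℝ)) ≤ C * (Set.ncard {n : ℕ | n < N ∧ q ∣ n ∧
        ∀ m : ℕ, c0 ≤ m → m < K → ∀ j, uSeq (P j) (m + n) = uSeq (P j) m} : ℝ) := by
  obtain ⟨c0, B, hB, h⟩ := int_recur P d hP hd
  refine ⟨c0, 2 * q * (B + 1), Nat.mul_pos (Nat.mul_pos (by norm_num) hq) (by omega),
    fun K N hK hN => ?_⟩
  obtain ⟨e, he⟩ : ∃ e, e = E d := ⟨_, rfl⟩
  have he1 : 1 ≤ e := by rw [he]; exact E_pos d
  have heR : (0 : ℝ) < e := by exact_mod_cast he1
  rw [← he] at hN ⊢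
  have hKe : 1 ≤ K ^ e := Nat.one_le_pow _ _ hK
  have hN0 : 0 < N := by
    have : 0 < 2 * q * (B + 1) * K ^ e := by positivity
    omega
  have hNR : (0 : ℝ) < N := by exact_mod_cast hN0
  have hqR : (1 : ℝ) ≤ q := by exact_mod_cast hq
  have hBR : (0 : ℝ) < (B : ℝ) + 1 := by positivity
  set ρ : ℝ := ((N : ℝ) / (B + 1)) ^ (1 / (e : ℝ)) with hρ
  have hρ0 : 0 ≤ ρ := by positivity
  have hρe : ρ ^ e = (N : ℝ) / (B + 1) := by
    rw [hρ, ← Real.rpow_natCast, ← Real.rpow_mul (by positivity), one_div,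
      inv_mul_cancel₀ heR.ne', Real.rpow_one]
  have hKρ : (K : ℝ) ≤ ρ := by
    refine le_of_pow_le_pow_left₀ (n := e) (by omega) hρ0 ?_
    rw [hρe, le_div_iff₀ hBR]
    have h1 : K ^ e * (B + 1) ≤ N := by
      refine le_trans ?_ hN
      calc K ^ e * (B + 1) = 1 * (B + 1) * K ^ e := by ring
        _ ≤ 2 * q * (B + 1) * K ^ e := by
            apply Nat.mul_le_mul_right
            apply Nat.mul_le_mul_right
            omega
    exact_mod_cast h1
  set X := ⌊ρ⌋₊ with hX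
  have hKX : K ≤ X := Nat.le_floor hKρ
  have hX1 : 1 ≤ X := by omega
  have hXρ : (X : ℝ) ≤ ρ := Nat.floor_le hρ0
  have hρX : ρ < X + 1 := Nat.lt_floor_add_one ρ
  obtain ⟨σ, hσ1, hσ2, hσ⟩ := h X hX1
  rw [← he] at hσ2
  have hBX : B * X ^ e < N := by
    have h1 : (X : ℝ) ^ e ≤ (N : ℝ) / (B + 1) := by
      rw [← hρe]
      exact pow_le_pow_left₀ (by positivity) hXρ e
    rw [le_div_iff₀ hBR] at h1
    have h2 : X ^ e * (B + 1) ≤ N := by exact_mod_cast h1
    have h3 : 1 ≤ X ^ e := Nat.one_le_pow _ _ hX1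
    have h4 : X ^ e * (B + 1) = B * X ^ e + X ^ e := by ring
    omega
  set T : Set ℕ := {n : ℕ | n < N ∧ q ∣ n ∧
        ∀ m : ℕ, c0 ≤ m → m < K → ∀ j, uSeq (P j) (m + n) = uSeq (P j) m} with hT
  have hTfin : T.Finite := fin_lt N _
  have hcount : X / q + 1 ≤ T.ncard := by
    have hsub : (((Finset.range (X / q + 1)).image (fun x => (q * x) * σ) : Finset ℕ) : Set ℕ) ⊆ T := by
      intro n hn
      rw [Finset.mem_coe, Finset.mem_image] at hn
      obtain ⟨x, hx, rfl⟩ := hn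
      rw [Finset.mem_range] at hx
      have hxX : q * x ≤ X := by
        calc q * x ≤ q * (X / q) := Nat.mul_le_mul_left _ (by omega)
          _ ≤ X := Nat.mul_div_le X q
      refine ⟨?_, ?_, fun m hm1 hm2 j => hσ (q * x) hxX m hm1 (by omega) j⟩
      · calc q * x * σ ≤ X * σ := Nat.mul_le_mul_right _ hxX
          _ < N := by omega
      · exact (dvd_mul_right q x).mul_right σ
    have h1 := Set.ncard_le_ncard hsub hTfin
    rw [Set.ncard_coe_finset, Finset.card_image_of_injective, Finset.card_range] at h1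
    · exact h1
    · intro x y hxy
      have h2 : q * x * σ = q * y * σ := hxy
      have h3 := Nat.eq_of_mul_eq_mul_right hσ1 h2
      exact Nat.eq_of_mul_eq_mul_left hq h3
  have hcR : (X : ℝ) / q ≤ T.ncard := by
    have h1 : X < q * (X / q + 1) := by
      have := Nat.lt_mul_div_succ X hq
      simpa using this
    have h2 : (X : ℝ) ≤ q * T.ncard := by
      have h3 : X ≤ q * T.ncard := h1.le.trans (Nat.mul_le_mul_left _ hcount)
      exact_mod_cast h3
    rw [div_le_iff₀ (by linarith)]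
    linarith
  have hX2 : ρ / 2 ≤ X := by
    have : (1 : ℝ) ≤ X := by exact_mod_cast hX1
    linarith
  have hfin : (N : ℝ) ^ (1 / (e : ℝ)) ≤ ρ * (B + 1) := by
    have h1 : (N : ℝ) = (N : ℝ) / (B + 1) * (B + 1) := by field_simp
    calc (N : ℝ) ^ (1 / (e : ℝ)) = ((N : ℝ) / (B + 1) * (B + 1)) ^ (1 / (e : ℝ)) := by rw [← h1]
      _ = ρ * ((B : ℝ) + 1) ^ (1 / (e : ℝ)) := by
          rw [Real.mul_rpow (by positivity) (by positivity)]
      _ ≤ ρ * ((B : ℝ) + 1) ^ (1 : ℝ) := by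
          apply mul_le_mul_of_nonneg_left _ hρ0
          apply Real.rpow_le_rpow_of_exponent_le
          · linarith [Nat.cast_nonneg (α := ℝ) B]
          · rw [div_le_one heR]; exact_mod_cast he1
      _ = ρ * (B + 1) := by rw [Real.rpow_one]
  refine hfin.trans ?_
  push_cast
  have h6 : ρ / 2 / q ≤ T.ncard := by
    refine le_trans ?_ hcR
    exact div_le_div_of_nonneg_right hX2 (by linarith)
  have h7 : ρ = 2 * q * (ρ / 2 / q) := by field_simp
  calc ρ * (B + 1) = 2 * q * (B + 1) * (ρ / 2 / q) := by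
        rw [show 2 * (q : ℝ) * (B + 1) * (ρ / 2 / q) = (2 * q * (ρ / 2 / q)) * (B + 1) by ring, ← h7]
    _ ≤ 2 * q * (B + 1) * T.ncard := mul_le_mul_of_nonneg_left h6 (by positivity)

theorem count_occ {r : ℕ} (P : Fin r → ℤ[X]) (d : ℕ)
    (hP : ∀ j, ∀ n : ℕ, 0 ≤ (P j).eval (n : ℤ))
    (hd : ∀ j, 2 ≤ (P j).natDegree ∧ (P j).natDegree ≤ d)
    (hlc : ∀ i j, i ≠ j → (P i).natDegree = (P j).natDegree →
      ∀ f : ℕ, (P i).leadingCoeff ≠ 2 ^ f * (P j).leadingCoeff)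
    (k : ℕ) (w : Fin r → Fin k → ℕ) (hw : ∀ j i, w j i < 2) (q a : ℕ) (hq : 0 < q) :
    ∃ c : ℝ, 0 < c ∧ ∃ N₀ : ℕ, ∀ N : ℕ, N₀ ≤ N →
      c * (N : ℝ) ^ (1 / (E d : ℝ)) ≤ (Set.ncard {m : ℕ | m < N ∧ m ≡ a [MOD q] ∧
        ∀ (j : Fin r) (i : Fin k), uSeq (P j) (m + i) = w j i} : ℝ) := by
  obtain ⟨c0, C, hC, h⟩ := count_recur P d hP (fun j => ⟨by have := (hd j).1; omega, (hd j).2⟩) q hq
  obtain ⟨n0, hn0, hn0q, hv⟩ := main_int P hP (fun j => (hd j).1) hlc q hq a c0 k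
    (fun j i => ((w j i : ℕ) : ZMod 2))
  have hv' : ∀ (j : Fin r) (i : Fin k), uSeq (P j) (n0 + i) = w j i := by
    intro j i
    have h1 := hv j i
    rw [← t_cast] at h1
    have h5 : t ((P j).eval ((n0 + i : ℕ) : ℤ)).toNat % 2 = w j i % 2 :=
      (ZMod.natCast_eq_natCast_iff _ _ 2).mp h1
    rwa [Nat.mod_eq_of_lt (t_lt _), Nat.mod_eq_of_lt (hw j i)] at h5
  obtain ⟨e, he⟩ : ∃ e, e = E d := ⟨_, rfl⟩
  have he1 : 1 ≤ e := by rw [he]; exact E_pos d
  have heR : (0 : ℝ) < e := by exact_mod_cast he1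
  rw [← he] at h ⊢
  have hCR : (1 : ℝ) ≤ C := by exact_mod_cast hC
  refine ⟨1 / (2 * C), by positivity, 2 * (C * (n0 + k + 1) ^ e) + 2 * n0 + 2, fun N hN => ?_⟩
  obtain ⟨N', hN'⟩ : ∃ N', N = n0 + N' := ⟨N - n0, by omega⟩
  have h1 := h (n0 + k + 1) N' (by omega) (by omega)
  set T : Set ℕ := {n : ℕ | n < N' ∧ q ∣ n ∧
        ∀ m : ℕ, c0 ≤ m → m < n0 + k + 1 → ∀ j, uSeq (P j) (m + n) = uSeq (P j) m} with hT
  set W : Set ℕ := {m : ℕ | m < N ∧ m ≡ a [MOD q] ∧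
        ∀ (j : Fin r) (i : Fin k), uSeq (P j) (m + i) = w j i} with hW
  have hWfin : W.Finite := fin_lt N _
  have hTW : T.ncard ≤ W.ncard := by
    have hsub : (fun n => n0 + n) '' T ⊆ W := by
      rintro _ ⟨n, ⟨hn1, hn2, hn3⟩, rfl⟩
      refine ⟨by show n0 + n < N; omega, ?_, fun j i => ?_⟩
      · have : n0 + n ≡ a + 0 [MOD q] := hn0q.add ((Nat.modEq_zero_iff_dvd).2 hn2)
        simpa using this
      · have h3 := hn3 (n0 + i) (by omega) (by have := i.2; omega) j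
        rw [← hv' j i, ← h3]
        show uSeq (P j) (n0 + n + i) = _
        congr 1
        omega
    have h4 := Set.ncard_le_ncard hsub hWfin
    rwa [Set.ncard_image_of_injective _ (add_right_injective n0)] at h4
  have hN2 : (N : ℝ) / 2 ≤ N' := by
    have h5 : N ≤ 2 * N' := by omega
    have h6 : (N : ℝ) ≤ 2 * N' := by exact_mod_cast h5
    linarith
  have hNR : (0 : ℝ) ≤ N := Nat.cast_nonneg N
  have h8 : (N : ℝ) ^ (1 / (e : ℝ)) / 2 ≤ (N' : ℝ) ^ (1 / (e : ℝ)) := by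
    calc (N : ℝ) ^ (1 / (e : ℝ)) / 2 ≤ (N : ℝ) ^ (1 / (e : ℝ)) / 2 ^ (1 / (e : ℝ)) := by
          apply div_le_div_of_nonneg_left (by positivity) (by positivity)
          calc (2 : ℝ) ^ (1 / (e : ℝ)) ≤ 2 ^ (1 : ℝ) := by
                apply Real.rpow_le_rpow_of_exponent_le (by norm_num)
                rw [div_le_one heR]; exact_mod_cast he1
            _ = 2 := Real.rpow_one 2
      _ = ((N : ℝ) / 2) ^ (1 / (e : ℝ)) := (Real.div_rpow hNR (by norm_num) _).symm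
      _ ≤ (N' : ℝ) ^ (1 / (e : ℝ)) := Real.rpow_le_rpow (by positivity) hN2 (by positivity)
  have h9 : (T.ncard : ℝ) ≤ W.ncard := by exact_mod_cast hTW
  have h10 : (N : ℝ) ^ (1 / (e : ℝ)) / 2 ≤ C * W.ncard :=
    (h8.trans h1).trans (mul_le_mul_of_nonneg_left h9 (by linarith))
  rw [one_div, inv_mul_eq_div, div_le_iff₀ (by positivity)]
  linarith

/-- **Thue–Morse along polynomials: power many occurrences of every word, with an exponent that
depends only on the degree.** Put `E d = (d + 1) ^ R`, `R` the least power of two above `d`.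
(1) For every integer polynomial `P` of degree at least two, non-negative on the natural numbers,
the sequence `u_P = (t (P n))_n` has maximal subword complexity (the question is degree at least
three), and every word `w` over `{0, 1}` occurs in it at least `c N ^ (1 / E (deg P))` times below
`N`, for all large `N`, with positions in any given residue class; only `c` and the word `large`
depend on `P`, `w` and the class.
(2) The same for `r × k` arrays of bits and `r` such polynomials of degrees at most `d`, if for two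
of them of the same degree the quotient of the leading coefficients is not a power of two.
(3) For `r` arbitrary such polynomials of degrees between `1` and `d` there are `c₀, C` such that
for all `K ≥ 1` and `N ≥ C K ^ E d` the parts of all the sequences on `[c₀, K)` recur simultaneously
at `N ^ (1 / E d) / C` or more shifts `n < N` divisible by `q`. -/
theorem result :
    (∀ P : ℤ[X], (∀ n : ℕ, 0 ≤ P.eval (n : ℤ)) → 2 ≤ P.natDegree →
      (∀ k : ℕ, complexity (uSeq P) k = 2 ^ k) ∧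
      ∀ (k : ℕ) (w : Fin k → ℕ), (∀ i, w i < 2) → ∀ q a : ℕ, 0 < q →
        ∃ c : ℝ, 0 < c ∧ ∃ N₀ : ℕ, ∀ N : ℕ, N₀ ≤ N →
          c * (N : ℝ) ^ (1 / (E P.natDegree : ℝ)) ≤
            (Set.ncard {m : ℕ | m < N ∧ m ≡ a [MOD q] ∧
              ∀ i : Fin k, uSeq P (m + i) = w i} : ℝ)) ∧
    (∀ (r d : ℕ) (P : Fin r → ℤ[X]), (∀ j, ∀ n : ℕ, 0 ≤ (P j).eval (n : ℤ)) →
      (∀ j, 2 ≤ (P j).natDegree ∧ (P j).natDegree ≤ d) →
      (∀ i j, i ≠ j → (P i).natDegree = (P j).natDegree →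
        ∀ f : ℕ, (P i).leadingCoeff ≠ 2 ^ f * (P j).leadingCoeff) →
      ∀ (k : ℕ) (w : Fin r → Fin k → ℕ), (∀ j i, w j i < 2) → ∀ q a : ℕ, 0 < q →
        ∃ c : ℝ, 0 < c ∧ ∃ N₀ : ℕ, ∀ N : ℕ, N₀ ≤ N →
          c * (N : ℝ) ^ (1 / (E d : ℝ)) ≤
            (Set.ncard {m : ℕ | m < N ∧ m ≡ a [MOD q] ∧
              ∀ (j : Fin r) (i : Fin k), uSeq (P j) (m + i) = w j i} : ℝ)) ∧
    (∀ (r d : ℕ) (P : Fin r → ℤ[X]), (∀ j, ∀ n : ℕ, 0 ≤ (P j).eval (n : ℤ)) →
      (∀ j, 1 ≤ (P j).natDegree ∧ (P j).natDegree ≤ d) → ∀ q : ℕ, 0 < q →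
        ∃ c₀ C : ℕ, 1 ≤ C ∧ ∀ K N : ℕ, 1 ≤ K → C * K ^ E d ≤ N →
          (N : ℝ) ^ (1 / (E d : ℝ)) ≤ C * (Set.ncard {n : ℕ | n < N ∧ q ∣ n ∧
            ∀ m : ℕ, c₀ ≤ m → m < K → ∀ j, uSeq (P j) (m + n) = uSeq (P j) m} : ℝ)) := by
  refine ⟨fun P hP hd => ⟨fun k => ?_, fun k w hw q a hq => ?_⟩,
    fun r d P hP hd hlc k w hw q a hq => count_occ P d hP hd hlc k w hw q a hq,
    fun r d P hP hd q hq => count_recur P d hP hd q hq⟩
  · exact Pool.Agent.Results.MP_b1aeef_nt.JointWords.result.1 P hP hd k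
  · obtain ⟨c, hc, N₀, h⟩ := count_occ (fun _ : Fin 1 => P) P.natDegree (fun _ => hP)
      (fun _ => ⟨hd, le_rfl⟩) (fun i j hij => absurd (Subsingleton.elim i j) hij) k
      (fun _ => w) (fun _ => hw) q a hq
    refine ⟨c, hc, N₀, fun N hN => (h N hN).trans ?_⟩
    have hset : {m : ℕ | m < N ∧ m ≡ a [MOD q] ∧
        ∀ (_ : Fin 1) (i : Fin k), uSeq P (m + i) = w i} =
        {m : ℕ | m < N ∧ m ≡ a [MOD q] ∧ ∀ i : Fin k, uSeq P (m + i) = w i} := by
      ext m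
      simp only [Set.mem_ofPred_eq]
      constructor
      · rintro ⟨h1, h2, h3⟩
        exact ⟨h1, h2, h3 0⟩
      · rintro ⟨h1, h2, h3⟩
        exact ⟨h1, h2, fun _ => h3⟩
    rw [hset]

end Pool.Agent.Results.MP_b1aeef_nt.ManyOccurrences
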