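import Pool.Agent.H53.QA.Cplx

/-!
# Strongly additive functions along polynomials: the exact subword complexity

Let `q ≥ 2`, let `G` be a finite abelian group and let `f : ℕ → G` be strongly `q`-additive:
`f (q n + d) = f n + f d` for `0 ≤ d < q`. So `f n` is the sum of the values of `f` at the digits of `n` in base `q`,
and these values are arbitrary (with `f 0 = 0`). Examples are the digit sum modulo `m`, the number of occurrences of a
given nonzero digit modulo `m`, and the vectors of such functions. For `q = 2` and `G = ℤ/2` the digit sum is the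
Thue-Morse sequence.

Let `H` be the subgroup of `G` generated by the elements `f n - n f(1)`. It is the smallest subgroup modulo which `f` is
linear (`f n = n f(1)`). Let `P` be an integer polynomial of degree at least two which is not negative on the natural
numbers. We determine the language of the sequence `f (P n)`: a word `w` over `G` of length `k` occurs as a block of
consecutive terms if and only if modulo `H` it is a block of the periodic sequence `P n f(1)`. So the subword complexity
is `|H| ^ k` times that of the periodic sequence, and it is maximal if and only if `H = G`. The words occur infinitely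
often, in all arithmetic progressions in which they can occur.

For the digit sum in base `q` modulo `m` the complexity is maximal if and only if `m` and `q - 1` are coprime. For
`q = m = 2` this answers the question (for all degrees at least two).

## The proof

The proof in the library for the Thue-Morse sequence uses that the values are in characteristic two. Here is a different
one. The set of the vectors of values `(f (c_i v ^ J))_i` for numbers `v` such that `f (c v ^ j) = 0` for all
`1 ≤ j < J` and all `c` up to a given bound is a subgroup `W` of `G ^ k`, and we show that it contains `H ^ k` if the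
`c_i` are different and close together (`full`). This is used in degree `J = deg P - 1`, for the coefficients
`c_i = P^(J) (n_0 + i) / J!`, which are different, and then in degree `J = deg P` in order to correct the constant.

* Adding a copy of a number `b` at a high position acts on the function `(c, j) ↦ f (c z ^ j)` by a linear unipotent
  operator `T b`, whose power with exponent `|G| ^ j` is the identity in degree `j` (`periodic`). So `|G| ^ J` copies
  of any number at sparse positions form a number `ν` with `f (c ν ^ j) = 0` for all `1 ≤ j ≤ J`, whose leading and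
  final digits can be prescribed (`null`).
* Now put one of the copies of `1` so low that in degree `J`, and not in lower degrees, it overlaps the digits of
  `c ν ^ J`. Everything cancels up to the defect `f (t + c J) - f t - f (c J)`, where `t` are the leading digits of
  `c ν ^ J` (`bare`, `core`).
* Choosing the leading digits of `ν` just above or just below the number where for one index `i` the number `t` jumps
  from `u - 1` to `u` we find that `W` contains the vector with the only coordinate
  `(f (u + c J) - f (u - 1 + c J)) - (f u - f (u - 1))` (`moves`).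
* If these elements are zero modulo a subgroup then `f` is linear modulo this subgroup (`lin`).
-/

set_option autoImplicit false

open Polynomial

namespace Pool.Agent.Results.MP_b1aeef_nt.StronglyAdditive

/-- `f` is strongly `q`-additive: `f (q n + d) = f n + f d` for all `n` and all digits `d < q`. -/
def IsStronglyAdditive {G : Type} [AddCommGroup G] (q : ℕ) (f : ℕ → G) : Prop :=
  ∀ n d, d < q → f (q * n + d) = f n + f d

/-- The subsequence of `f` along `P`: `n ↦ f (P n)` (for `P n ≥ 0`). -/
def along {G : Type} (f : ℕ → G) (P : ℤ[X]) (n : ℕ) : G := f (P.eval (n : ℤ)).toNat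

/-- The subword complexity: the number of the words `u m, u (m + 1), …, u (m + k - 1)`, `m ≥ 0`. -/
noncomputable def complexity {G : Type} (u : ℕ → G) (k : ℕ) : ℕ :=
  Set.ncard {w : Fin k → G | ∃ m : ℕ, ∀ i : Fin k, w i = u (m + i)}

/-- The subgroup generated by the elements `f n - n f(1)`, the smallest subgroup modulo which `f` is linear. -/
def nonlinearPart {G : Type} [AddCommGroup G] (f : ℕ → G) : AddSubgroup G :=
  AddSubgroup.closure (Set.range fun n : ℕ => f n - n • f 1)

/-- The digit sum in base `q` modulo `m`; for `q = m = 2` the Thue-Morse sequence. -/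
def digitSum (q m n : ℕ) : ZMod m := ((Nat.digits q n).sum : ZMod m)

theorem mem_part {G : Type} [AddCommGroup G] (f : ℕ → G) (P : ℤ[X])
    (hP : ∀ n : ℕ, 0 ≤ P.eval (n : ℤ)) (n : ℕ) :
    along f P n - P.eval (n : ℤ) • f 1 ∈ nonlinearPart f := by
  have h1 : ((P.eval (n : ℤ)).toNat) • f 1 = P.eval (n : ℤ) • f 1 := by
    rw [← natCast_zsmul, Int.toNat_of_nonneg (hP n)]
  rw [← h1]
  exact AddSubgroup.subset_closure ⟨(P.eval (n : ℤ)).toNat, rfl⟩

/-- the exact complexity -/
theorem complexity_eq {G : Type} [AddCommGroup G] [Finite G] (f : ℕ → G) (P : ℤ[X]) (k : ℕ)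
    (h : ∀ w : Fin k → G, (∃ m : ℕ, ∀ i : Fin k, w i = along f P (m + i)) ↔
      ∃ m : ℕ, ∀ i : Fin k, w i - P.eval ((m + i : ℕ) : ℤ) • f 1 ∈ nonlinearPart f) :
    complexity (along f P) k = Nat.card (nonlinearPart f) ^ k *
      complexity (fun n => (QuotientAddGroup.mk (P.eval (n : ℤ) • f 1) : G ⧸ nonlinearPart f)) k := by
  rw [complexity, complexity, ← Pool.Agent.H53.QA.ncard_preimage (nonlinearPart f) k]
  congr 1
  ext w
  rw [Set.mem_ofPred_eq, h w]
  constructor
  · rintro ⟨m, hm⟩
    refine ⟨m, fun i => ?_⟩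
    have h1 := (QuotientAddGroup.eq_zero_iff _).mpr (hm i)
    rw [QuotientAddGroup.mk_sub, sub_eq_zero] at h1
    exact h1
  · rintro ⟨m, hm⟩
    refine ⟨m, fun i => ?_⟩
    rw [← QuotientAddGroup.eq_zero_iff, QuotientAddGroup.mk_sub, sub_eq_zero]
    exact hm i

/-- the complexity is maximal if and only if all words occur -/
theorem maximal_iff {G : Type} [Finite G] (u : ℕ → G) (k : ℕ) :
    complexity u k = Nat.card G ^ k ↔ ∀ w : Fin k → G, ∃ m : ℕ, ∀ i : Fin k, w i = u (m + i) := by
  have hcard : Nat.card (Fin k → G) = Nat.card G ^ k := by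
    rw [Nat.card_fun, Nat.card_fin]
  rw [complexity, ← hcard, ← Set.ncard_univ]
  constructor
  · intro h w
    have h1 := Set.eq_of_subset_of_ncard_le (Set.subset_univ _) h.ge (Set.toFinite _)
    have h2 : w ∈ {w : Fin k → G | ∃ m : ℕ, ∀ i : Fin k, w i = u (m + i)} := by
      rw [h1]; trivial
    exact h2
  · intro h
    congr 1
    exact Set.eq_univ_of_forall h

/-- if all words occur then `f` has no linear quotient -/
theorem part_eq_top {G : Type} [AddCommGroup G] [Finite G] (f : ℕ → G) (P : ℤ[X])
    (hP : ∀ n : ℕ, 0 ≤ P.eval (n : ℤ))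
    (h : ∀ (k : ℕ) (w : Fin k → G), ∃ m : ℕ, ∀ i : Fin k, w i = along f P (m + i)) :
    nonlinearPart f = ⊤ := by
  classical
  rw [eq_top_iff]
  intro x _
  set e := Nat.card G with he
  have hcard : 1 ≤ e := Nat.card_pos
  have hez : ∀ x : G, e • x = 0 := fun x => card_nsmul_eq_zero'
  obtain ⟨m, hm⟩ := h (e + 1) (fun i => if (i : ℕ) = 0 then x else 0)
  have h0 := hm ⟨0, by omega⟩
  have h1 := hm ⟨e, by omega⟩
  simp only [if_true, add_zero] at h0
  simp only [if_neg (show e ≠ 0 by omega)] at h1
  have h2 := mem_part f P hP m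
  have h3 := mem_part f P hP (m + e)
  rw [← h0] at h2
  rw [← h1] at h3
  have h4 : P.eval ((m + e : ℕ) : ℤ) • f 1 = P.eval (m : ℤ) • f 1 := by
    have h5 : (((m + e : ℕ) : ℤ) - (m : ℤ)) ∣ P.eval ((m + e : ℕ) : ℤ) - P.eval (m : ℤ) :=
      sub_dvd_eval_sub _ _ _
    have h6 : ((m + e : ℕ) : ℤ) - (m : ℤ) = (e : ℤ) := by push_cast; ring
    rw [h6] at h5
    obtain ⟨y, hy⟩ := h5
    rw [← sub_eq_zero, ← sub_smul, hy, mul_smul, natCast_zsmul, hez]
  rw [h4] at h3
  have h7 := sub_mem h2 h3
  have h8 : x - P.eval (m : ℤ) • f 1 - (0 - P.eval (m : ℤ) • f 1) = x := by abel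
  rwa [h8] at h7

/-- **The language of a strongly additive function along a polynomial.**

(1) Let `q ≥ 2`, `G` a finite abelian group, `f : ℕ → G` strongly `q`-additive, `H` the subgroup generated by the
elements `f n - n f(1)`, and `P` an integer polynomial of degree at least two, not negative on `ℕ`. Then
* (a) a word `w` over `G` occurs in the sequence `f (P n)` if and only if it is congruent modulo `H` to a block of the
  periodic sequence `P n f(1)`;
* (b) if `w` is congruent to the block of `P n f(1)` at `m` then for all `N` and all `D ≥ 1` the word `w` occurs in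
  `f (P n)` at a place `n ≥ N` with `n ≡ m` modulo `D`;
* (c) the complexity of `f (P n)` is `|H| ^ k` times the complexity of the periodic sequence `P n f(1)` modulo `H`;
* (d) it is maximal (`|G| ^ k` for all `k`) if and only if `H = G`.

(2) For the digit sum in base `q` modulo `m` the complexity is maximal, equal to `m ^ k` for all `k`, if and only if
`q - 1` and `m` are coprime.

(3) In particular the complexity of the Thue-Morse sequence along `P` is `2 ^ k` (the question is degree at least
three). -/
theorem result :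
    (∀ (q : ℕ), 2 ≤ q → ∀ (G : Type) [AddCommGroup G] [Finite G] (f : ℕ → G),
      IsStronglyAdditive q f → ∀ P : ℤ[X], (∀ n : ℕ, 0 ≤ P.eval (n : ℤ)) → 2 ≤ P.natDegree →
      (∀ (k : ℕ) (w : Fin k → G), (∃ m : ℕ, ∀ i : Fin k, w i = along f P (m + i)) ↔
        ∃ m : ℕ, ∀ i : Fin k, w i - P.eval ((m + i : ℕ) : ℤ) • f 1 ∈ nonlinearPart f) ∧
      (∀ (k : ℕ) (w : Fin k → G) (m : ℕ),
        (∀ i : Fin k, w i - P.eval ((m + i : ℕ) : ℤ) • f 1 ∈ nonlinearPart f) →
        ∀ N D : ℕ, 1 ≤ D → ∃ n ≥ N, n ≡ m [MOD D] ∧ ∀ i : Fin k, w i = along f P (n + i)) ∧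
      (∀ k : ℕ, complexity (along f P) k = Nat.card (nonlinearPart f) ^ k *
        complexity (fun n => (QuotientAddGroup.mk (P.eval (n : ℤ) • f 1) :
          G ⧸ nonlinearPart f)) k) ∧
      ((∀ k : ℕ, complexity (along f P) k = Nat.card G ^ k) ↔ nonlinearPart f = ⊤)) ∧
    (∀ q m : ℕ, 2 ≤ q → 1 ≤ m → ∀ P : ℤ[X], (∀ n : ℕ, 0 ≤ P.eval (n : ℤ)) → 2 ≤ P.natDegree →
      ((∀ k : ℕ, complexity (along (digitSum q m) P) k = m ^ k) ↔ Nat.Coprime (q - 1) m)) ∧
    (∀ P : ℤ[X], (∀ n : ℕ, 0 ≤ P.eval (n : ℤ)) → 2 ≤ P.natDegree →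
      ∀ k : ℕ, complexity (along (digitSum 2 2) P) k = 2 ^ k) := by
  have main : ∀ (q : ℕ), 2 ≤ q → ∀ (G : Type) [AddCommGroup G] [Finite G] (f : ℕ → G),
      IsStronglyAdditive q f → ∀ P : ℤ[X], (∀ n : ℕ, 0 ≤ P.eval (n : ℤ)) → 2 ≤ P.natDegree →
      (∀ (k : ℕ) (w : Fin k → G), (∃ m : ℕ, ∀ i : Fin k, w i = along f P (m + i)) ↔
        ∃ m : ℕ, ∀ i : Fin k, w i - P.eval ((m + i : ℕ) : ℤ) • f 1 ∈ nonlinearPart f) ∧
      (∀ (k : ℕ) (w : Fin k → G) (m : ℕ),
        (∀ i : Fin k, w i - P.eval ((m + i : ℕ) : ℤ) • f 1 ∈ nonlinearPart f) →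
        ∀ N D : ℕ, 1 ≤ D → ∃ n ≥ N, n ≡ m [MOD D] ∧ ∀ i : Fin k, w i = along f P (n + i)) ∧
      (∀ k : ℕ, complexity (along f P) k = Nat.card (nonlinearPart f) ^ k *
        complexity (fun n => (QuotientAddGroup.mk (P.eval (n : ℤ) • f 1) :
          G ⧸ nonlinearPart f)) k) ∧
      ((∀ k : ℕ, complexity (along f P) k = Nat.card G ^ k) ↔ nonlinearPart f = ⊤) := by
    intro q hq G _ _ f hf P hP hd
    have hb : ∀ (k : ℕ) (w : Fin k → G) (m : ℕ),
        (∀ i : Fin k, w i - P.eval ((m + i : ℕ) : ℤ) • f 1 ∈ nonlinearPart f) →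
        ∀ N D : ℕ, 1 ≤ D → ∃ n ≥ N, n ≡ m [MOD D] ∧ ∀ i : Fin k, w i = along f P (n + i) := by
      intro k w m hw N D hD
      obtain ⟨n, hn, hnm, h⟩ := Pool.Agent.H53.QA.words hq hf P hd hP k w m hw N D hD
      exact ⟨n, hn, hnm, fun i => (h i).symm⟩
    have ha : ∀ (k : ℕ) (w : Fin k → G), (∃ m : ℕ, ∀ i : Fin k, w i = along f P (m + i)) ↔
        ∃ m : ℕ, ∀ i : Fin k, w i - P.eval ((m + i : ℕ) : ℤ) • f 1 ∈ nonlinearPart f := by
      intro k w
      constructor
      · rintro ⟨m, hm⟩
        exact ⟨m, fun i => by rw [hm i]; exact mem_part f P hP (m + i)⟩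
      · rintro ⟨m, hm⟩
        obtain ⟨n, -, -, h⟩ := hb k w m hm 0 1 le_rfl
        exact ⟨n, h⟩
    refine ⟨ha, hb, fun k => complexity_eq f P k (ha k), fun h => ?_, fun h k => ?_⟩
    · exact part_eq_top f P hP fun k => (maximal_iff _ k).mp (h k)
    · rw [maximal_iff]
      intro w
      rw [ha]
      exact ⟨0, fun i => by rw [h]; trivial⟩
  have hdig : ∀ q m : ℕ, 2 ≤ q → 1 ≤ m → ∀ P : ℤ[X], (∀ n : ℕ, 0 ≤ P.eval (n : ℤ)) →
      2 ≤ P.natDegree →
      ((∀ k : ℕ, complexity (along (digitSum q m) P) k = m ^ k) ↔ Nat.Coprime (q - 1) m) := by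
    intro q m hq hm P hP hd
    have : NeZero m := ⟨by omega⟩
    have h1 := (main q hq (ZMod m) (digitSum q m) (Pool.Agent.H53.QA.digits_sa q m hq) P hP hd).2.2.2
    rw [Nat.card_zmod] at h1
    exact h1.trans (Pool.Agent.H53.QA.digits_closure q m hq hm)
  exact ⟨main, hdig, fun P hP hd => (hdig 2 2 le_rfl (by norm_num) P hP hd).mpr (by norm_num)⟩

end Pool.Agent.Results.MP_b1aeef_nt.StronglyAdditive
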